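import Pool.Agent.Q46.RL.Ded3

/-!
# Project RL of helper64, job DED (helper46)
-/

set_option autoImplicit false

namespace Pool.Agent.Q46.RL

open WithZero MvPolynomial Pool.Agent.Q64.RL

theorem ded (hres : S_res) (hexv : S_exv) : S_ded := by
  intro k E J _ _ _ _ _ _ y e hy hfin
  classical
  let K := IntermediateField.adjoin k (Set.range y)
  let y' : J → K := fun j => ⟨y j, IntermediateField.subset_adjoin k _ ⟨j, rfl⟩⟩
  have hyy : ∀ j, ((y' j : K) : E) = y j := fun j => rfl
  have hy' : AlgebraicIndependent k y' := AlgebraicIndependent.of_comp K.val hy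
  have htop : IntermediateField.adjoin k (Set.range y') = ⊤ := by
    apply IntermediateField.map_injective K.val
    rw [IntermediateField.adjoin_map, ← Set.range_comp]
    have h1 : (⇑K.val ∘ y') = y := rfl
    rw [h1, ← AlgHom.fieldRange_eq_map, IntermediateField.fieldRange_val]
  obtain ⟨v0, hs0, ht0, he0, hr0⟩ := hexv k K J y' e hy' htop
  have he0' : v0 (y' e) < 1 := by rw [he0, ← exp_zero, exp_lt_exp]; norm_num
  have hye : y e ≠ 0 := hy.ne_zero e
  have haev : ∀ G : MvPolynomial J k, ((aeval y' G : K) : E) = aeval y G := by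
    intro G
    have := MvPolynomial.comp_aeval_apply (f := y') K.val G
    exact this
  -- exponents
  have key : ∀ a : K, a ≠ 0 → ∃ t : ℤ, v0 a = exp (-t) ∧ ∀ v : Valuation E ℤᵐ⁰, Triv k v →
      v (y e) < 1 → RInd k v y {j | j ≠ e} → v (a : E) = v (y e) ^ t := by
    intro a ha
    have ha' : a ∈ IntermediateField.adjoin k (Set.range y') := by rw [htop]; trivial
    obtain ⟨P, Q, hPQ⟩ := (IntermediateField.mem_adjoin_range_iff k y' a).1 ha'
    have hP : P ≠ 0 := by
      rintro rfl
      exact ha (by rw [hPQ, map_zero, zero_div])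
    have hQ : Q ≠ 0 := by
      rintro rfl
      exact ha (by rw [hPQ, map_zero, div_zero])
    obtain ⟨m, hm⟩ := poly_val e P hP
    obtain ⟨l, hl⟩ := poly_val e Q hQ
    refine ⟨(m : ℤ) - l, ?_, ?_⟩
    · rw [hPQ, map_div₀, hm K v0 y' ht0 he0' hr0, hl K v0 y' ht0 he0' hr0, he0, ← exp_nsmul,
        ← exp_nsmul, ← exp_sub]
      congr 1
      simp only [nsmul_eq_mul, mul_neg, mul_one, sub_neg_eq_add, neg_sub]
      ring
    · intro v ht he hr
      have h1 : (a : E) = aeval y P / aeval y Q := by
        rw [hPQ, ← haev, ← haev]; rfl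
      have hv0 : v (y e) ≠ 0 := by
        intro h0; rw [map_eq_zero] at h0; exact hye h0
      rw [h1, map_div₀, hm E v y ht he hr, hl E v y ht he hr, zpow_sub₀ hv0, zpow_natCast,
        zpow_natCast]
  -- the discrete valuation ring
  let R := v0.valuationSubring
  have hR : ∀ a : K, a ∈ R ↔ v0 a ≤ 1 := fun a => Iff.rfl
  let π : R := ⟨y' e, he0'.le⟩
  have hunit : ∀ a : R, IsUnit a ↔ v0 (a : K) = 1 := by
    intro a
    constructor
    · intro h
      obtain ⟨b, hb⟩ := isUnit_iff_exists_inv.1 h
      have h1 : v0 (a : K) * v0 (b : K) = 1 := by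
        rw [← map_mul]
        have : ((a * b : R) : K) = 1 := by rw [hb]; rfl
        have h2 : (a : K) * (b : K) = 1 := this
        rw [h2, map_one]
      refine le_antisymm ((hR _).1 a.2) ?_
      rw [← h1]
      exact mul_le_of_le_one_right' ((hR _).1 b.2)
    · intro h
      have h0 : (a : K) ≠ 0 := by
        intro h0; rw [h0, map_zero] at h; exact zero_ne_one h
      refine isUnit_iff_exists_inv.2 ⟨⟨(a : K)⁻¹, ?_⟩, ?_⟩
      · rw [hR, map_inv₀, h, inv_one]
      · apply Subtype.ext
        exact mul_inv_cancel₀ h0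
  have hπ : Irreducible π := by
    refine irreducible_iff.2 ⟨?_, ?_⟩
    · rw [hunit]
      exact he0'.ne
    · intro a b hab
      rw [hunit, hunit]
      have h1 : v0 (a : K) * v0 (b : K) = exp (-1) := by
        rw [← map_mul, ← he0]
        have : (π : K) = ((a * b : R) : K) := by rw [hab]
        exact congrArg v0 this.symm
      have ha0 : v0 (a : K) ≠ 0 := by
        intro h0; rw [h0, zero_mul] at h1; exact exp_ne_zero h1.symm
      have hb0 : v0 (b : K) ≠ 0 := by
        intro h0; rw [h0, mul_zero] at h1; exact exp_ne_zero h1.symm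
      have ha1 := (hR _).1 a.2
      have hb1 := (hR _).1 b.2
      rw [← exp_log ha0, ← exp_log hb0, ← exp_add, exp_inj] at h1
      rw [← exp_log ha0, ← exp_zero, exp_le_exp] at ha1
      rw [← exp_log hb0, ← exp_zero, exp_le_exp] at hb1
      rcases (show log (v0 (a : K)) = 0 ∨ log (v0 (b : K)) = 0 by omega) with h | h
      · left; rw [← exp_log ha0, h, exp_zero]
      · right; rw [← exp_log hb0, h, exp_zero]
  have hdvr : IsDiscreteValuationRing R := by
    refine IsDiscreteValuationRing.ofHasUnitMulPowIrreducibleFactorization ⟨π, hπ, ?_⟩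
    intro a ha
    have ha' : (a : K) ≠ 0 := fun h => ha (Subtype.ext h)
    obtain ⟨t, ht, -⟩ := key (a : K) ha'
    have ht0' : 0 ≤ t := by
      have := (hR _).1 a.2
      rw [ht, ← exp_zero, exp_le_exp] at this
      omega
    obtain ⟨n, rfl⟩ := Int.eq_ofNat_of_zero_le ht0'
    refine ⟨n, ?_⟩
    have hu : v0 ((a : K) * (y' e ^ n)⁻¹) = 1 := by
      rw [map_mul, map_inv₀, map_pow, ht, he0, ← exp_nsmul, ← exp_neg, ← exp_add]
      simp
    have hu2 : IsUnit (⟨(a : K) * (y' e ^ n)⁻¹, (hR _).2 hu.le⟩ : R) := (hunit _).2 hu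
    obtain ⟨u, hu3⟩ := hu2
    refine ⟨u, ?_⟩
    apply Subtype.ext
    have hye' : y' e ≠ 0 := fun h => hye (congrArg Subtype.val h)
    have h5 : ((π ^ n * (u : R) : R) : K) = y' e ^ n * ((a : K) * (y' e ^ n)⁻¹) := by
      rw [hu3]; rfl
    rw [h5]
    field_simp
  have hRE : ∀ a : R, algebraMap R E a = ((a : K) : E) := fun a => rfl
  obtain ⟨T, r, f, hT, hTr, hTf, hsum⟩ := gen R K E π hπ
  have hprop : ∀ v, v ∈ T → Triv k v ∧ v (y e) < 1 ∧ RInd k v y {j | j ≠ e} := by
    intro v hv
    obtain ⟨-, h1, h2⟩ := (hT v).1 hv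
    have hone : ∀ a : K, v0 a = 1 → v (a : E) = 1 := by
      intro a ha
      have ha0 : v (a : E) ≠ 0 := by
        intro h0
        rw [map_eq_zero] at h0
        have : a = 0 := Subtype.ext h0
        rw [this, map_zero] at ha
        exact zero_ne_one ha
      refine le_antisymm (h1 ⟨a, (hR _).2 ha.le⟩) ?_
      have h3 := h1 ⟨a⁻¹, (hR _).2 (by rw [map_inv₀, ha, inv_one])⟩
      have h4 : v ((a : E)⁻¹) ≤ 1 := h3
      rw [map_inv₀] at h4
      exact (inv_le_one₀ (zero_lt_iff.2 ha0)).1 h4
    refine ⟨?_, h2, ?_⟩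
    · intro c hc
      exact hone (algebraMap k K c) (ht0 c hc)
    · intro G hG
      have := hone _ (hr0 G hG)
      have h5 : ((aeval (fun j : {j | j ≠ e} => y' j) G : K) : E) =
          aeval (fun j : {j | j ≠ e} => y j) G :=
        MvPolynomial.comp_aeval_apply (f := fun j : {j | j ≠ e} => y' j) K.val G
      rw [← h5]
      exact this
  refine ⟨T, r, f, ?_, ?_, ?_, hsum⟩
  · intro v
    constructor
    · intro hv
      exact ⟨((hT v).1 hv).1, hprop v hv⟩
    · rintro ⟨hs, ht, he, hr⟩
      refine (hT v).2 ⟨hs, ?_, he⟩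
      intro a
      rw [hRE]
      by_cases ha : (a : K) = 0
      · rw [ha]; simp
      · obtain ⟨t, ht1, ht2⟩ := key _ ha
        rw [ht2 v ht he hr]
        have ht0' : 0 ≤ t := by
          have := (hR _).1 a.2
          rw [ht1, ← exp_zero, exp_le_exp] at this
          omega
        obtain ⟨n, rfl⟩ := Int.eq_ofNat_of_zero_le ht0'
        rw [zpow_natCast]
        exact pow_le_one' he.le n
  · intro v hv
    exact hTr v hv
  · intro v hv κ _ _ ρ hρ
    obtain ⟨ht, he, hr⟩ := hprop v hv
    have hvR : ∀ a : K, v0 a ≤ 1 → v (a : E) ≤ 1 := fun a ha => ((hT v).1 hv).2.1 ⟨a, ha⟩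
    have hvR1 : ∀ a : K, v0 a < 1 → v (a : E) < 1 := by
      intro a ha
      by_cases h0 : a = 0
      · rw [h0]; simp
      · obtain ⟨t, ht1, ht2⟩ := key _ h0
        rw [ht2 v ht he hr]
        have ht0' : 0 < t := by
          rw [ht1, ← exp_zero, exp_lt_exp] at ha
          omega
        obtain ⟨n, rfl⟩ := Int.eq_ofNat_of_zero_le ht0'.le
        rw [zpow_natCast]
        refine pow_lt_one₀ zero_le he ?_
        rintro rfl
        simp at ht0'
    have hρ0 : ρ 0 = 0 := by
      rw [hρ.zero 0 (by simp)]; simp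
    have hρ1 : ρ 1 = 1 := by
      have := hρ.alg 1
      rwa [map_one, map_one] at this
    let ys : {j | j ≠ e} → K := fun j => y' j
    have hys : ∀ j : {j | j ≠ e}, v (y j) ≤ 1 := fun j => rind_le e v y he hr j
    have hev : ∀ G : MvPolynomial {j | j ≠ e} k, ((aeval ys G : K) : E) =
        aeval (fun j : {j | j ≠ e} => y j) G :=
      fun G => MvPolynomial.comp_aeval_apply (f := ys) K.val G
    have hle : ∀ G : MvPolynomial {j | j ≠ e} k, v ((aeval ys G : K) : E) ≤ 1 := by
      intro G
      rw [hev]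
      induction G using MvPolynomial.induction_on with
      | C c =>
        rw [aeval_C]
        by_cases hc : c = 0
        · simp [hc]
        · exact (ht c hc).le
      | add p q hp hq =>
        rw [map_add]
        exact (v.map_add _ _).trans (max_le hp hq)
      | mul_X p j hp =>
        rw [map_mul, map_mul, aeval_X]
        exact mul_le_one' hp (hys j)
    have hrho : ∀ G : MvPolynomial {j | j ≠ e} k, ρ ((aeval ys G : K) : E) =
        aeval (fun j : {j | j ≠ e} => ρ (y j)) G := by
      intro G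
      have hle' : ∀ G : MvPolynomial {j | j ≠ e} k,
          v (aeval (fun j : {j | j ≠ e} => y j) G) ≤ 1 := fun G => by rw [← hev]; exact hle G
      rw [hev]
      induction G using MvPolynomial.induction_on with
      | C c => rw [aeval_C, aeval_C, hρ.alg]
      | add p q hp hq =>
        rw [map_add, map_add, hρ.add _ _ (hle' p) (hle' q), hp, hq]
      | mul_X p j hp =>
        rw [map_mul, map_mul, aeval_X, aeval_X, hρ.mul _ _ (hle' p) (hys j), hp]
    have hquot : ∀ P Q : MvPolynomial {j | j ≠ e} k, Q ≠ 0 →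
        v0 (aeval ys P / aeval ys Q) ≤ 1 ∧
        ρ ((aeval ys P / aeval ys Q : K) : E) =
          aeval (fun j : {j | j ≠ e} => ρ (y j)) P / aeval (fun j : {j | j ≠ e} => ρ (y j)) Q := by
      intro P Q hQ
      have h0 : v0 (aeval ys P) ≤ 1 := by
        by_cases hP : P = 0
        · rw [hP, map_zero, map_zero]; exact zero_le
        · exact (hr0 P hP).le
      have h1 : v0 (aeval ys P / aeval ys Q) ≤ 1 := by
        have h2 : v0 (aeval ys Q) = 1 := hr0 Q hQ
        rw [map_div₀, h2, div_one]
        exact h0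
      refine ⟨h1, ?_⟩
      have h3 : v ((aeval ys Q : K) : E) = 1 := by
        rw [hev]; exact hr Q hQ
      have h4 : ρ ((aeval ys Q : K) : E) ≠ 0 := by
        rw [Ne, hρ.zero _ h3.le, h3]; exact lt_irrefl _
      have h5 : ((aeval ys Q : K) : E) ≠ 0 := by
        intro h; rw [h, map_zero] at h3; exact zero_ne_one h3
      rw [hrho] at h4
      rw [eq_div_iff h4, ← hrho, ← hrho, ← hρ.mul _ _ (hvR _ h1) h3.le]
      congr 1
      change (aeval ys P : K).1 / (aeval ys Q : K).1 * _ = _
      exact div_mul_cancel₀ _ h5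
    have himg : (fun j => ρ (y j)) '' {j | j ≠ e} =
        Set.range (fun j : {j | j ≠ e} => ρ (y j)) := Set.image_eq_range _ _
    have himg' : y' '' {j | j ≠ e} = Set.range ys := Set.image_eq_range _ _
    have hmem : ∀ a : R, ρ ((a : K) : E) ∈
        IntermediateField.adjoin k ((fun j => ρ (y j)) '' {j | j ≠ e}) := by
      intro a
      obtain ⟨b, hb, hab⟩ := (hres k K J y' e hy' htop v0 ht0 he0' hr0).2.1 (a : K) a.2
      rw [himg'] at hb
      obtain ⟨P, Q, hPQ⟩ := (IntermediateField.mem_adjoin_range_iff k ys b).1 hb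
      have hb1 : v0 b ≤ 1 := by
        have : b = (a : K) - ((a : K) - b) := by ring
        rw [this]
        exact (v0.map_sub _ _).trans (max_le a.2 hab.le)
      have h1 : ρ ((a : K) : E) = ρ (b : E) := by
        have h2 : ((a : K) : E) = (((a : K) - b : K) : E) + (b : E) := by
          push_cast
          ring
        rw [h2, hρ.add _ _ (hvR1 _ hab).le (hvR _ hb1),
          (hρ.zero _ (hvR1 _ hab).le).2 (hvR1 _ hab), zero_add]
      rw [h1]
      by_cases hQ : Q = 0
      · have : b = 0 := by rw [hPQ, hQ, map_zero, div_zero]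
        rw [this]
        have h3 : ((0 : K) : E) = 0 := rfl
        rw [h3, hρ0]
        exact zero_mem _
      · rw [hPQ, (hquot P Q hQ).2, himg]
        exact (IntermediateField.mem_adjoin_range_iff k _ _).2 ⟨P, Q, rfl⟩
    let F := IntermediateField.adjoin k ((fun j => ρ (y j)) '' {j | j ≠ e})
    let ρ0 : R → F := fun a => ⟨ρ ((a : K) : E), hmem a⟩
    refine hTf v hv F κ ρ0 ρ hρ.add hρ.mul hρ1 hρ.zero hρ.surj ?_ (fun a => rfl)
    intro c
    have hc : (c : κ) ∈ IntermediateField.adjoin k ((fun j => ρ (y j)) '' {j | j ≠ e}) := c.2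
    rw [himg] at hc
    obtain ⟨P, Q, hPQ⟩ := (IntermediateField.mem_adjoin_range_iff k _ _).1 hc
    by_cases hQ : Q = 0
    · refine ⟨0, Subtype.ext ?_⟩
      change ρ ((0 : K) : E) = (c : κ)
      rw [hPQ, hQ, map_zero, div_zero]
      exact hρ0
    · refine ⟨⟨aeval ys P / aeval ys Q, (hquot P Q hQ).1⟩, Subtype.ext ?_⟩
      change ρ ((aeval ys P / aeval ys Q : K) : E) = (c : κ)
      rw [(hquot P Q hQ).2, hPQ]

end Pool.Agent.Q46.RL
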