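import Mathlib

/-!
# Project RL of helper64, job DED: extensions of discrete valuation rings (helper46)
-/

set_option autoImplicit false

namespace Pool.Agent.Q46.RL

open WithZero IsDedekindDomain

/-- an element integral over a ring on which `v` is at most `1` has value at most `1` -/
theorem le_one_of_integral {R E : Type} [CommRing R] [Field E] [Algebra R E]
    (v : Valuation E ℤᵐ⁰) (h : ∀ a : R, v (algebraMap R E a) ≤ 1) {x : E}
    (hx : IsIntegral R x) : v x ≤ 1 := by
  let φ : R →+* v.integer := (algebraMap R E).codRestrict v.integer h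
  have h1 : IsIntegral v.integer ((RingHom.id E) x) := by
    refine IsIntegral.map_of_comp_eq φ (RingHom.id E) ?_ hx
    ext a
    rfl
  exact (Valuation.integer.integers v).mem_of_integral h1

section

variable {S E : Type} [CommRing S] [IsDedekindDomain S] [Field E] [Algebra S E]
  [IsFractionRing S E]

theorem val_alg (q : HeightOneSpectrum S) (r : S) :
    q.valuation E (algebraMap S E r) = q.intValuation r :=
  q.valuation_of_algebraMap r

theorem val_lt_one (q : HeightOneSpectrum S) (r : S) :
    q.valuation E (algebraMap S E r) < 1 ↔ r ∈ q.asIdeal :=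
  q.valuation_lt_one_iff_mem r

/-- elements of value at most one are quotients with denominator outside the prime -/
theorem exists_quot (q : HeightOneSpectrum S) (x : E) (hx : q.valuation E x ≤ 1) :
    ∃ a b : S, b ∉ q.asIdeal ∧ x * algebraMap S E b = algebraMap S E a := by
  obtain ⟨⟨c, d⟩, hcd⟩ := IsLocalization.surj (nonZeroDivisors S) x
  simp only at hcd
  have hd : (d : S) ≠ 0 := nonZeroDivisors.coe_ne_zero d
  -- the power of q dividing d
  obtain ⟨m, hm⟩ : ∃ m : ℕ, q.intValuation (d : S) = exp (-(m : ℤ)) := by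
    rw [q.intValuation_if_neg hd]
    exact ⟨_, rfl⟩
  have hvd : q.valuation E (algebraMap S E d) = exp (-(m : ℤ)) := by
    rw [val_alg, hm]
  have hvc : q.intValuation c ≤ exp (-(m : ℤ)) := by
    rw [← val_alg (E := E), ← hcd, map_mul, hvd]
    exact mul_le_of_le_one_left' hx
  -- the ideal (c) + q^... : choose an element t with t ∉ q, t * q^m ⊆ (d)
  have hdm : (d : S) ∈ q.asIdeal ^ m := (q.intValuation_le_pow_iff_mem d m).1 hm.le
  have hcm : c ∈ q.asIdeal ^ m := (q.intValuation_le_pow_iff_mem c m).1 hvc
  obtain ⟨I, hI⟩ := Ideal.dvd_iff_le.2 ((Ideal.span_singleton_le_iff_mem _).2 hdm)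
  have hIq : ¬ I ≤ q.asIdeal := by
    intro hle
    have h1 : (d : S) ∈ q.asIdeal ^ m * I := by
      rw [← hI]; exact Ideal.mem_span_singleton_self _
    have this : (d : S) ∈ q.asIdeal ^ (m + 1) := by
      rw [pow_succ]
      exact Ideal.mul_mono_right hle h1
    have h2 := (q.intValuation_le_pow_iff_mem (d : S) (m + 1)).2 this
    rw [hm, exp_le_exp] at h2
    push_cast at h2
    omega
  obtain ⟨t, htI, htq⟩ := SetLike.not_le_iff_exists.1 hIq
  have hct : c * t ∈ Ideal.span {(d : S)} := by
    rw [hI]; exact Ideal.mul_mem_mul hcm htI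
  obtain ⟨a, ha⟩ := Ideal.mem_span_singleton'.1 hct
  refine ⟨a, t, htq, ?_⟩
  have hd' : algebraMap S E d ≠ 0 := by
    intro h
    exact hd ((IsFractionRing.injective S E) (by rw [h, map_zero]))
  apply mul_right_cancel₀ hd'
  calc x * algebraMap S E t * algebraMap S E d
      = (x * algebraMap S E d) * algebraMap S E t := by ring
    _ = algebraMap S E (c * t) := by rw [hcd, map_mul]
    _ = algebraMap S E a * algebraMap S E d := by rw [← ha, map_mul]

/-- a surjective valuation which is at most `1` on `S` and less than `1` on `q` only is the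
valuation of `q` -/
theorem eq_valuation (q : HeightOneSpectrum S) (v : Valuation E ℤᵐ⁰)
    (hs : Function.Surjective v) (h1 : ∀ a : S, v (algebraMap S E a) ≤ 1)
    (h2 : ∀ a : S, v (algebraMap S E a) < 1 ↔ a ∈ q.asIdeal) : v = q.valuation E := by
  -- units
  have hle : ∀ x : E, q.valuation E x ≤ 1 → v x ≤ 1 := by
    intro x hx
    obtain ⟨a, b, hb, hab⟩ := exists_quot q x hx
    have hvb : v (algebraMap S E b) = 1 :=
      le_antisymm (h1 b) (not_lt.1 fun h => hb ((h2 b).1 h))
    have := h1 a
    rw [← hab, map_mul, hvb, mul_one] at this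
    exact this
  have hone : ∀ x : E, q.valuation E x = 1 → v x = 1 := by
    intro x hx
    refine le_antisymm (hle x hx.le) ?_
    have h3 : v x⁻¹ ≤ 1 := hle x⁻¹ (by rw [map_inv₀, hx, inv_one])
    rw [map_inv₀] at h3
    have hx0 : v x ≠ 0 := by
      intro h0
      rw [map_eq_zero] at h0
      rw [h0, map_zero] at hx
      exact zero_ne_one hx
    exact (inv_le_one₀ (zero_lt_iff.2 hx0)).1 h3
  obtain ⟨π, hπ'⟩ := q.valuation_exists_uniformizer' E
  have hπ : q.valuation E (algebraMap S E π) = exp (-1) := hπ'
  have hπq : π ∈ q.asIdeal := by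
    rw [← val_lt_one (E := E), hπ, ← exp_zero, exp_lt_exp]
    norm_num
  have hvπ : v (algebraMap S E π) < 1 := (h2 π).2 hπq
  have hvπ0 : v (algebraMap S E π) ≠ 0 := by
    intro h0
    rw [map_eq_zero] at h0
    rw [h0, map_zero] at hπ
    exact exp_ne_zero hπ.symm
  have hpow : ∀ x : E, x ≠ 0 → v x = v (algebraMap S E π) ^ (-(log (q.valuation E x))) := by
    intro x hx
    have hx' : q.valuation E x ≠ 0 := by
      intro h0; rw [map_eq_zero] at h0; exact hx h0
    have h3 : q.valuation E (x * (algebraMap S E π) ^ (log (q.valuation E x))) = 1 := by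
      rw [map_mul, map_zpow₀, hπ, ← exp_zsmul]
      conv_lhs => rw [← exp_log hx']
      rw [← exp_add]
      simp
    have h4 := hone _ h3
    rw [map_mul, map_zpow₀] at h4
    rw [zpow_neg]
    exact eq_inv_of_mul_eq_one_left h4
  obtain ⟨x, hx⟩ := hs (exp (-1))
  have hx0 : x ≠ 0 := by
    rintro rfl
    rw [map_zero] at hx
    exact exp_ne_zero hx.symm
  have h5 := hpow x hx0
  rw [hx] at h5
  have h6 : v (algebraMap S E π) = exp (log (v (algebraMap S E π))) := (exp_log hvπ0).symm
  rw [h6, ← exp_zsmul, exp_inj, smul_eq_mul] at h5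
  have h7 : log (v (algebraMap S E π)) < 0 := by
    rw [h6, ← exp_zero, exp_lt_exp] at hvπ
    exact hvπ
  have h8 : log (v (algebraMap S E π)) = -1 := by
    have h9 : log (v (algebraMap S E π)) ∣ 1 := by
      refine ⟨(log (q.valuation E x)), ?_⟩
      linarith
    have h10 := Int.isUnit_iff.1 (isUnit_of_dvd_one h9)
    rcases h10 with h | h
    · omega
    · exact h
  ext x
  by_cases hx : x = 0
  · simp [hx]
  have hx' : q.valuation E x ≠ 0 := by
    intro h0; rw [map_eq_zero] at h0; exact hx h0
  rw [hpow x hx, h6, h8, ← exp_zsmul]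
  conv_rhs => rw [← exp_log hx']
  rw [exp_inj]
  simp

end

end Pool.Agent.Q46.RL
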