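import Pool.Agent.Q46.RL.Ded1

/-!
# Project RL of helper64, job DED: the fundamental equality for a discrete valuation ring
(helper46)
-/

set_option autoImplicit false

namespace Pool.Agent.Q46.RL

open WithZero IsDedekindDomain

theorem gen (R K E : Type) [CommRing R] [IsDomain R] [IsDiscreteValuationRing R] [Field K]
    [Field E] [Algebra R K] [IsFractionRing R K] [Algebra K E] [Algebra R E]
    [IsScalarTower R K E] [FiniteDimensional K E] [CharZero K] (π : R) (hπ : Irreducible π) :
    ∃ (T : Finset (Valuation E ℤᵐ⁰)) (r f : Valuation E ℤᵐ⁰ → ℕ),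
    (∀ v, v ∈ T ↔ Function.Surjective v ∧ (∀ a : R, v (algebraMap R E a) ≤ 1) ∧
      v (algebraMap R E π) < 1) ∧
    (∀ v ∈ T, v (algebraMap R E π) = exp (-(r v : ℤ))) ∧
    (∀ v ∈ T, ∀ (F κ : Type) [Field F] [Field κ] [Algebra F κ] (ρ0 : R → F) (ρ : E → κ),
      (∀ a b, v a ≤ 1 → v b ≤ 1 → ρ (a + b) = ρ a + ρ b) →
      (∀ a b, v a ≤ 1 → v b ≤ 1 → ρ (a * b) = ρ a * ρ b) → ρ 1 = 1 →
      (∀ a, v a ≤ 1 → (ρ a = 0 ↔ v a < 1)) → (∀ c, ∃ a, v a ≤ 1 ∧ ρ a = c) →
      Function.Surjective ρ0 → (∀ a, algebraMap F κ (ρ0 a) = ρ (algebraMap R E a)) →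
      f v = Module.finrank F κ) ∧
    Module.finrank K E = ∑ v ∈ T, r v * f v := by
  classical
  let S := integralClosure R E
  have : Algebra.IsSeparable K E := inferInstance
  have : IsIntegralClosure S R E := inferInstance
  have : IsDedekindDomain S := IsIntegralClosure.isDedekindDomain R K E S
  have : Module.Finite R S := IsIntegralClosure.finite R K E S
  have : IsFractionRing S E := IsIntegralClosure.isFractionRing_of_finite_extension R K E S
  have : Module.IsTorsionFree R E := by
    have : FaithfulSMul R E := by
      rw [faithfulSMul_iff_algebraMap_injective, IsScalarTower.algebraMap_eq R K E]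
      exact (algebraMap K E).injective.comp (IsFractionRing.injective R K)
    infer_instance
  have : Module.IsTorsionFree R S := inferInstance
  have : Module.Flat R S := inferInstance
  set p : Ideal R := IsLocalRing.maximalIdeal R with hp
  have hpπ : p = Ideal.span {π} := hπ.maximalIdeal_eq
  have hRE : Function.Injective (algebraMap R E) := by
    rw [IsScalarTower.algebraMap_eq R K E]
    exact (algebraMap K E).injective.comp (IsFractionRing.injective R K)
  have hRS : ∀ a : R, algebraMap R E a = algebraMap S E (algebraMap R S a) := fun a => rfl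
  have hπS : algebraMap R S π ≠ 0 := by
    intro h
    have : algebraMap R E π = 0 := by rw [hRS, h, map_zero]
    exact hπ.ne_zero (hRE (by rw [this, map_zero]))
  have hmapp : p.map (algebraMap R S) = Ideal.span {algebraMap R S π} := by
    rw [hpπ, Ideal.map_span, Set.image_singleton]
  have hmap0 : p.map (algebraMap R S) ≠ ⊥ := by
    rw [hmapp]
    simpa using hπS
  -- the primes over p
  have hqπ : ∀ q : p.primesOver S, algebraMap R S π ∈ q.1 := by
    intro q
    have h1 : π ∈ q.1.under R := by
      rw [← Ideal.over_def q.1 p, hpπ]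
      exact Ideal.mem_span_singleton_self π
    exact h1
  let H : p.primesOver S → HeightOneSpectrum S := fun q =>
    ⟨q.1, inferInstance, fun h => hπS (by
      have := hqπ q
      rw [h] at this
      simpa using this)⟩
  have hH : ∀ q, (H q).asIdeal = q.1 := fun q => rfl
  let val : p.primesOver S → Valuation E ℤᵐ⁰ := fun q => (H q).valuation E
  have hval : Function.Injective val := by
    intro q q' h
    have h1 : H q = H q' := HeightOneSpectrum.eq_of_valuation_isEquiv_valuation (K := E) (by
      have h2 : (H q).valuation E = (H q').valuation E := h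
      rw [h2])
    exact Subtype.ext (by rw [← hH, ← hH, h1])
  let r : Valuation E ℤᵐ⁰ → ℕ := Function.extend val (fun q => q.1.ramificationIdx R) (fun _ => 0)
  let f : Valuation E ℤᵐ⁰ → ℕ := Function.extend val (fun q => q.1.inertiaDeg R) (fun _ => 0)
  have hr : ∀ q, r (val q) = q.1.ramificationIdx R := fun q => hval.extend_apply _ _ q
  have hf : ∀ q, f (val q) = q.1.inertiaDeg R := fun q => hval.extend_apply _ _ q
  refine ⟨Finset.univ.image val, r, f, ?_, ?_, ?_, ?_⟩
  · intro v
    constructor
    · intro hv
      obtain ⟨q, -, rfl⟩ := Finset.mem_image.1 hv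
      refine ⟨(H q).valuation_surjective E, ?_, ?_⟩
      · intro a
        rw [hRS]
        exact (H q).valuation_le_one _
      · rw [hRS]
        exact (val_lt_one (H q) _).2 (hqπ q)
    · rintro ⟨hs, h1, h2⟩
      have hS : ∀ a : S, v (algebraMap S E a) ≤ 1 := fun a => le_one_of_integral v h1 a.2
      let Q : Ideal S :=
        { carrier := {a | v (algebraMap S E a) < 1}
          add_mem' := by
            intro a b ha hb
            simp only [Set.mem_ofPred_eq, map_add] at *
            exact (v.map_add _ _).trans_lt (max_lt ha hb)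
          zero_mem' := by simp
          smul_mem' := by
            intro c a ha
            simp only [Set.mem_ofPred_eq, smul_eq_mul, map_mul] at *
            exact (mul_le_of_le_one_left' (hS c)).trans_lt ha }
      have hQ : ∀ a, a ∈ Q ↔ v (algebraMap S E a) < 1 := fun a => Iff.rfl
      have hQp : Q.IsPrime := by
        refine Ideal.isPrime_iff.2 ⟨?_, ?_⟩
        · intro h
          have : (1 : S) ∈ Q := by rw [h]; trivial
          rw [hQ, map_one, map_one] at this
          exact lt_irrefl _ this
        · intro a b hab
          by_contra hcon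
          push Not at hcon
          rw [hQ, hQ, not_lt, not_lt] at hcon
          rw [hQ, map_mul, map_mul] at hab
          have := mul_le_mul' hcon.1 hcon.2
          rw [one_mul] at this
          exact absurd hab (not_lt.2 this)
      have hQo : Q.LiesOver p := by
        constructor
        refine (IsLocalRing.eq_maximalIdeal ?_ : Q.under R = p).symm
        refine IsLocalRing.isMaximal_iff R |>.2 ?_ |> fun h => h
        refine le_antisymm (IsLocalRing.le_maximalIdeal ?_) ?_
        · intro h
          have : (1 : R) ∈ Q.under R := by rw [h]; trivial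
          have h3 : algebraMap R S 1 ∈ Q := this
          rw [hQ, map_one, map_one, map_one] at h3
          exact lt_irrefl _ h3
        · change p ≤ _
          rw [hpπ, Ideal.span_singleton_le_iff_mem]
          change algebraMap R S π ∈ Q
          rw [hQ, ← hRS]
          exact h2
      refine Finset.mem_image.2 ⟨⟨Q, hQp, hQo⟩, Finset.mem_univ _, ?_⟩
      exact (eq_valuation (H ⟨Q, hQp, hQo⟩) v hs hS (fun a => (hQ a).symm)).symm
  · intro v hv
    obtain ⟨q, -, rfl⟩ := Finset.mem_image.1 hv
    rw [hr, hRS]
    change (H q).valuation E _ = _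
    rw [val_alg, HeightOneSpectrum.intValuation_eq_exp_neg_multiplicity _ hπS,
      Ideal.IsDedekindDomain.ramificationIdx_eq_multiplicity p q.1 hmap0, hmapp]
  · intro v hv F κ _ _ _ ρ0 ρ hadd hmul hone hzero hsurj hρ0 hcomp
    obtain ⟨q, -, rfl⟩ := Finset.mem_image.1 hv
    have hle : ∀ a : S, val q (algebraMap S E a) ≤ 1 := fun a => (H q).valuation_le_one _
    have : q.1.IsMaximal := inferInstance
    rw [hf, Ideal.inertiaDeg_eq_of_isMaximal p q.1]
    -- the residue map on S
    have hρz : ρ 0 = 0 := by
      rw [hzero 0 (by simp)]; simp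
    let ρS : S →+* κ :=
      { toFun := fun a => ρ (algebraMap S E a)
        map_one' := by rw [map_one]; exact hone
        map_mul' := fun a b => by rw [map_mul]; exact hmul _ _ (hle a) (hle b)
        map_zero' := by rw [map_zero]; exact hρz
        map_add' := fun a b => by rw [map_add]; exact hadd _ _ (hle a) (hle b) }
    have hρS : ∀ a, ρS a = ρ (algebraMap S E a) := fun a => rfl
    have hker : RingHom.ker ρS = q.1 := by
      ext a
      rw [RingHom.mem_ker, hρS, hzero _ (hle a)]
      exact val_lt_one (H q) a
    have hsS : Function.Surjective ρS := by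
      intro c
      obtain ⟨a, ha, rfl⟩ := hsurj c
      obtain ⟨s, t, ht, hst⟩ := exists_quot (H q) a ha
      have ht' : t ∉ q.1 := ht
      obtain ⟨t', ht''⟩ : ∃ t', t * t' - 1 ∈ q.1 := by
        have h5 : IsUnit (Ideal.Quotient.mk q.1 t) := by
          let := Ideal.Quotient.field q.1
          exact isUnit_iff_ne_zero.2 (fun h => ht' (Ideal.Quotient.eq_zero_iff_mem.1 h))
        obtain ⟨u, hu⟩ := isUnit_iff_exists_inv.1 h5
        obtain ⟨t', rfl⟩ := Ideal.Quotient.mk_surjective u
        refine ⟨t', ?_⟩
        rw [← Ideal.Quotient.eq_zero_iff_mem, map_sub, map_mul, hu, map_one, sub_self]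
      refine ⟨s * t', ?_⟩
      have h6 : ρS t * ρS t' = 1 := by
        rw [← hker, RingHom.mem_ker, map_sub, map_mul, map_one, sub_eq_zero] at ht''
        exact ht''
      have h7 : ρ a * ρS t = ρS s := by
        rw [hρS, hρS, ← hst]
        exact (hmul _ _ ha (hle t)).symm
      rw [map_mul, ← h7, mul_assoc, h6, mul_one]
    -- the residue map on R
    have hinj : Function.Injective (algebraMap F κ) := (algebraMap F κ).injective
    let ρR : R →+* F :=
      { toFun := ρ0
        map_one' := hinj (by rw [hcomp, map_one, map_one, hone])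
        map_mul' := fun a b => hinj (by
          rw [hcomp, map_mul, map_mul, hcomp, hcomp]
          exact hmul _ _ (by rw [hRS]; exact hle _) (by rw [hRS]; exact hle _))
        map_zero' := hinj (by rw [hcomp, map_zero, map_zero, hρz])
        map_add' := fun a b => hinj (by
          rw [hcomp, map_add, map_add, hcomp, hcomp]
          exact hadd _ _ (by rw [hRS]; exact hle _) (by rw [hRS]; exact hle _)) }
    have hρR : ∀ a, ρR a = ρ0 a := fun a => rfl
    have hkR : RingHom.ker ρR = p := by
      refine IsLocalRing.eq_maximalIdeal ?_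
      exact RingHom.ker_isMaximal_of_surjective ρR hρ0
    let i1 : (R ⧸ p) ≃+* (R ⧸ RingHom.ker ρR) := Ideal.quotEquivOfEq hkR.symm
    let i2 : (R ⧸ RingHom.ker ρR) ≃+* F := RingHom.quotientKerEquivOfSurjective hρ0
    let j1 : (S ⧸ q.1) ≃+* (S ⧸ RingHom.ker ρS) := Ideal.quotEquivOfEq hker.symm
    let j2 : (S ⧸ RingHom.ker ρS) ≃+* κ := RingHom.quotientKerEquivOfSurjective hsS
    refine Algebra.finrank_eq_of_equiv_equiv (i1.trans i2) (j1.trans j2) ?_
    apply Ideal.Quotient.ringHom_ext
    ext a
    change algebraMap F κ (ρ0 a) = ρ (algebraMap S E (algebraMap R S a))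
    exact hcomp a
  · rw [Finset.sum_image (fun a _ b _ h => hval h)]
    rw [IsFractionRing.finrank_eq R K S E, ← Ideal.sum_ramification_inertia_eq_finrank p S]
    refine Finset.sum_congr rfl fun q _ => ?_
    rw [hr, hf]

end Pool.Agent.Q46.RL
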