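import Pool.Agent.Q46.RL.Ded2
import Pool.Agent.Q64.RL.Stm

/-!
# Project RL of helper64, job DED: values of polynomials (helper46)
-/

set_option autoImplicit false
set_option linter.unusedSectionVars false

namespace Pool.Agent.Q46.RL

open WithZero MvPolynomial Pool.Agent.Q64.RL

section

variable {k : Type} [Field k] {J : Type} [Fintype J] [DecidableEq J] (e : J)

/-- values of a polynomial in elements of value at most one -/
theorem poly_le {E : Type} [Field E] [Algebra k E] (v : Valuation E ℤᵐ⁰) (z : J → E)
    (ht : Triv k v) (hz : ∀ j, v (z j) ≤ 1) (G : MvPolynomial J k) : v (aeval z G) ≤ 1 := by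
  induction G using MvPolynomial.induction_on with
  | C c =>
    rw [aeval_C]
    by_cases hc : c = 0
    · simp [hc]
    · exact (ht c hc).le
  | add p q hp hq =>
    rw [map_add]
    exact (v.map_add _ _).trans (max_le hp hq)
  | mul_X p j hp =>
    rw [map_mul, map_mul, aeval_X]
    exact mul_le_one' hp (hz j)

theorem rind_le {E : Type} [Field E] [Algebra k E] (v : Valuation E ℤᵐ⁰) (z : J → E)
    (he : v (z e) < 1) (hr : RInd k v z {j | j ≠ e}) (j : J) : v (z j) ≤ 1 := by
  by_cases hj : j = e
  · subst hj; exact he.le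
  · have := hr (X ⟨j, hj⟩) (X_ne_zero _)
    rw [aeval_X] at this
    exact this.le

/-- the value of a nonzero polynomial is a power of the value of `z e`, with an exponent which
only depends on the polynomial -/
theorem poly_val (G : MvPolynomial J k) (hG : G ≠ 0) : ∃ m : ℕ,
    ∀ (E : Type) [Field E] [Algebra k E] (v : Valuation E ℤᵐ⁰) (z : J → E), Triv k v →
      v (z e) < 1 → RInd k v z {j | j ≠ e} → v (aeval z G) = v (z e) ^ m := by
  obtain ⟨m, H, hH, rfl⟩ := WfDvdMonoid.max_power_factor hG (X_prime (i := e)).irreducible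
  refine ⟨m, ?_⟩
  intro E _ _ v z ht he hr
  have hz := rind_le e v z he hr
  rw [map_mul, map_mul, map_pow, map_pow, aeval_X]
  suffices h : v (aeval z H) = 1 by rw [h, mul_one]
  have hmod : modMonomial H (Finsupp.single e 1) ≠ 0 := by
    intro h0
    exact hH (X_dvd_iff_modMonomial_eq_zero.2 h0)
  set H0 := modMonomial H (Finsupp.single e 1) with hH0
  have hvars : (↑H0.vars : Set J) ⊆ Set.range (Subtype.val : {j | j ≠ e} → J) := by
    intro j hj
    rw [Subtype.range_coe]
    rintro rfl
    obtain ⟨d, hd, hjd⟩ := (mem_vars_iff_mem_support j).1 (Finset.mem_coe.1 hj)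
    have h1 : ¬ Finsupp.single j 1 ≤ d := by
      intro hle
      rw [mem_support_iff, hH0, coeff_modMonomial_of_le _ hle] at hd
      exact hd rfl
    apply h1
    rw [Finsupp.single_le_iff]
    exact Nat.one_le_iff_ne_zero.2 (Finsupp.mem_support_iff.1 hjd)
  obtain ⟨Q, hQ⟩ := exists_rename_eq_of_vars_subset_range H0 _ Subtype.val_injective hvars
  have hQ0 : Q ≠ 0 := by
    rintro rfl
    rw [map_zero] at hQ
    exact hmod hQ.symm
  have h1 : v (aeval z H0) = 1 := by
    rw [← hQ, aeval_rename]
    exact hr Q hQ0
  have h2 : v (z e * aeval z (divMonomial H (Finsupp.single e 1))) < 1 := by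
    rw [map_mul]
    exact (mul_le_of_le_one_right' (poly_le v z ht hz _)).trans_lt he
  have h3 : aeval z H = z e * aeval z (divMonomial H (Finsupp.single e 1)) + aeval z H0 := by
    conv_lhs => rw [← divMonomial_add_modMonomial_single H e]
    rw [map_add, map_mul, aeval_X]
  rw [h3, Valuation.map_add_eq_of_lt_right _ (by rw [h1]; exact h2), h1]

end

end Pool.Agent.Q46.RL
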